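import Pool.Agent.SLC.Uni5

/-!
Finite type invariants of sufficiently large degree determine a string link modulo C_d-equivalence; the degree depends
on d only.
-/

set_option autoImplicit false

namespace Pool.Agent.Results.MP_b75e71_gt.Cofinal

open SLC

/-- For all `d` there is `N` such that, for all `m`, two `m`-strand string links on which all finite type invariants of
degree `< N` with values in abelian groups agree are `C_d`-equivalent. -/
theorem result (d : ℕ) (hd : 1 ≤ d) : ∃ N : ℕ, ∀ (m : ℕ) (x y : Tangle), IsStringLink m x → IsStringLink m y →
    (∀ (A : Type) [AddCommGroup A] (v : Tangle → A), FiniteType m N v → v x = v y) → CEquiv m d x y :=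
  SLC.uniform d hd

end Pool.Agent.Results.MP_b75e71_gt.Cofinal
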