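import Pool.Agent.SLC.SjM

/-!
Finite type invariants of degree < d determine string links modulo C_d-equivalence up to an explicit exponent, which
is 1 for d <= 9.
-/

set_option autoImplicit false

namespace Pool.Agent.Results.MP_b75e71_gt.ExplicitExponent

open SLC

/-- If the `m`-strand string links `x`, `y` agree on all finite type invariants of degree `< d` with values in abelian
groups, then the power of `x y⁻¹` whose exponent is the product over all `s ≥ 0` with `8 * 2 ^ s < d` of the least
common multiple of `1, ..., (d - 1) / (4 * 2 ^ s)` (for `s = 0`: of `1, ..., (d - 2) / 4`) is trivial modulo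
`C_d`-equivalence. The exponent is `1` for `d ≤ 9`. -/
theorem result (m d : ℕ) (hd : 1 ≤ d) (x y : Tangle) (hx : IsStringLink m x) (hy : IsStringLink m y)
    (hv : ∀ (A : Type) [AddCommGroup A] (v : Tangle → A), FiniteType m d v → v x = v y) :
    ∃ z : Tangle, IsStringLink m z ∧ CEquiv m d (y * z) 1 ∧
      CEquiv m d ((x * z) ^ ∏ s ∈ Finset.range (Nat.clog 2 ((d + 7) / 8)),
        (Finset.Icc 1 ((d - (if s = 0 then 2 else 1)) / (4 * 2 ^ s))).lcm id) 1 :=
  SLC.explicit2 d hd m x y hx hy hv

end Pool.Agent.Results.MP_b75e71_gt.ExplicitExponent
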